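import Pool.Agent.W932.RO.Stm

set_option autoImplicit false

/-! Oracle machines. -/

namespace Pool.Agent.W883.RO

open Finset Pool.Agent.NPC Pool.Agent.H676
open Pool.Agent.H620R2.Gauge Pool.Agent.W911.AL Pool.Agent.W932.RO

theorem main1 : StmAsked := by
  intro M A A' x n
  induction n with
  | zero =>
    intro a
    exact ⟨le_rfl, fun _ => ⟨rfl, rfl⟩⟩
  | succ n ih =>
    intro a
    cases h : M.D (pairBits x a) with
    | nil => simp [asked, Alg.run, h]
    | cons b q =>
      cases b with
      | true => simp [asked, Alg.run, h]
      | false =>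
        simp only [asked, Alg.run, h, List.length_cons, List.mem_cons]
        obtain ⟨h1, h2⟩ := ih (a ++ [A q])
        refine ⟨by omega, fun h3 => ?_⟩
        have h4 : A' q = A q := h3 q (Or.inl rfl)
        have h5 := h2 (fun q' hq' => h3 q' (Or.inr hq'))
        rw [h4]
        exact ⟨h5.1, by rw [h5.2]⟩

theorem main2 : StmDTr := by
  intro M x n
  induction n with
  | zero =>
    intro a I _ _ O hO
    cases h : M.D (pairBits x a) with
    | nil => exact ⟨_, fun z => by simp only [Alg.run, h]; rfl⟩
    | cons b q =>
      cases b with
      | true => exact ⟨decide (some q = some [true]), fun z => by simp only [Alg.run, h]⟩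
      | false => exact ⟨decide ((none : Option (List Bool)) = some [true]), fun z => by
          simp only [Alg.run, h]⟩
  | succ n ih =>
    intro a I _ _ O hO
    cases h : M.D (pairBits x a) with
    | nil => exact DTr.const ⟨decide (some ([] : List Bool) = some [true]), fun z => by
        rw [Alg.run, h]⟩
    | cons b q =>
      cases b with
      | true => exact DTr.const ⟨decide (some q = some [true]), fun z => by rw [Alg.run, h]⟩
      | false =>
        have hrun : ∀ z, M.run (O z) x (n + 1 + 1) a = M.run (O z) x (n + 1) (a ++ [O z q]) := by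
          intro z
          rw [Alg.run, h]
        simp_rw [hrun]
        rcases hO q with ⟨b, hb⟩ | ⟨i, hi⟩
        · simp_rw [hb]
          exact (ih (a ++ [b]) I O hO).succ
        · refine Or.inr ⟨i, fun b => ?_⟩
          have h1 : ∀ z : I → Bool, O (Function.update z i b) q = b := fun z => by
            rw [hi, Function.update_self]
          simp_rw [h1]
          refine ih (a ++ [b]) I (fun z => O (Function.update z i b)) fun q' => ?_
          rcases hO q' with ⟨c, hc⟩ | ⟨j, hj⟩
          · exact Or.inl ⟨c, fun z => hc _⟩
          · by_cases hji : j = i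
            · left
              refine ⟨b, fun z => ?_⟩
              rw [hj, hji, Function.update_self]
            · right
              refine ⟨j, fun z => ?_⟩
              rw [hj, Function.update_of_ne hji]

theorem run_loc (M : Alg) (x : List Bool) (n : ℕ) : ∀ a : List Bool,
    ∃ (ℓ : ℕ) (Z : Finset (Option (List Bool))), (∀ A, M.run A x n a ∈ Z) ∧
      ∀ A A' : Oracle, (∀ w : List Bool, w.length ≤ ℓ → A w = A' w) →
        M.run A x n a = M.run A' x n a := by
  classical
  induction n with
  | zero =>
    intro a
    exact ⟨0, {none}, fun A => by simp [Alg.run], fun A A' _ => rfl⟩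
  | succ n ih =>
    intro a
    cases h : M.D (pairBits x a) with
    | nil => exact ⟨0, {some []}, fun A => by simp [Alg.run, h], fun A A' _ => by simp [Alg.run, h]⟩
    | cons b q =>
      cases b with
      | true =>
        exact ⟨0, {some q}, fun A => by simp [Alg.run, h], fun A A' _ => by simp [Alg.run, h]⟩
      | false =>
        have hrun : ∀ A : Oracle, M.run A x (n + 1) a = M.run A x n (a ++ [A q]) := by
          intro A
          rw [Alg.run, h]
        obtain ⟨ℓ1, Z1, h1, h2⟩ := ih (a ++ [true])
        obtain ⟨ℓ2, Z2, h3, h4⟩ := ih (a ++ [false])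
        refine ⟨max q.length (max ℓ1 ℓ2), Z1 ∪ Z2, ?_, ?_⟩
        · intro A
          rw [hrun, mem_union]
          cases A q with
          | true => exact Or.inl (h1 A)
          | false => exact Or.inr (h3 A)
        · intro A A' hA
          rw [hrun, hrun, ← hA q (le_max_left _ _)]
          cases A q with
          | true => exact h2 A A' fun w hw => hA w (by omega)
          | false => exact h4 A A' fun w hw => hA w (by omega)

theorem main3 : StmLoc := by
  classical
  intro P M t m y
  obtain ⟨ℓ1, Z, h1, h2⟩ := run_loc P y (P.p.eval y.length) []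
  choose ℓ2 Z2 h3 h4 using fun (T u : List Bool) => run_loc M (pairBits T u) (m + 1) []
  have hfin : {l : List Bool | l.length = t * m}.Finite := List.finite_length_eq Bool (t * m)
  set U : Finset (List Bool) := hfin.toFinset with hU
  set ℓ3 : ℕ := (Z ×ˢ U).sup (fun q => ℓ2 (q.1.getD []) q.2) with hℓ3
  refine ⟨max ℓ1 ℓ3, fun A A' hA => ?_⟩
  have hout : P.out A y = P.out A' y := h2 A A' fun w hw => hA w (by omega)
  unfold Ans
  rw [← hout]
  apply Alt_congr
  intro v hv
  have hvU : v ∈ U := by
    rw [hU, Set.Finite.mem_toFinset]
    show v.length = t * m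
    simpa using hv
  have hle : ℓ2 ((P.out A y).getD []) v ≤ ℓ3 :=
    Finset.le_sup (f := fun q : Option (List Bool) × List Bool => ℓ2 (q.1.getD []) q.2)
      (mem_product.2 ⟨h1 A, hvU⟩ : (P.out A y, v) ∈ Z ×ˢ U)
  rw [h4 ((P.out A y).getD []) v A A' fun w hw => hA w (by omega)]

end Pool.Agent.W883.RO
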