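import Pool.Agent.W611.RO.Stms

/-! RO-TR (helper883): `tau` is a tracial state. -/

set_option autoImplicit false
open scoped ComplexConjugate InnerProductSpace Topology BoundedContinuousFunction
open Filter MeasureTheory NormedSpace

namespace Pool.Agent.W611.RO
open Pool.Agent.H712R5.BO

section TR

variable {G Ω H : Type} [Group G] [Countable G] [MeasurableSpace Ω] [MulAction G Ω]
  [NormedAddCommGroup H] [InnerProductSpace ℂ H] [CompleteSpace H]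
  (P : Measure Ω) [IsProbabilityMeasure P] (b : HilbertBasis G ℂ H)
  (L : G → unitary (H →L[ℂ] H))

theorem TR_isom (g : G) (x y : H) :
    ⟪(L g : H →L[ℂ] H) x, (L g : H →L[ℂ] H) y⟫_ℂ = ⟪x, y⟫_ℂ := by
  have e2 : star (L g : H →L[ℂ] H) * (L g : H →L[ℂ] H) = 1 := (Unitary.mem_iff.mp (L g).2).1
  have e3 : star (L g : H →L[ℂ] H) ((L g : H →L[ℂ] H) y) = y :=
    congrArg (fun X : H →L[ℂ] H => X y) e2
  rw [← ContinuousLinearMap.adjoint_inner_right, ← ContinuousLinearMap.star_eq_adjoint, e3]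

theorem TR_shift (hL : Reg b L) (A : CF (Ω := Ω) b L) (g : G) (ω : Ω) (i j : G) :
    ⟪b (g * i), ev b L (g • ω) A (b (g * j))⟫_ℂ = ⟪b i, ev b L ω A (b j)⟫_ℂ := by
  have h1 := ev_cov b L A g ω
  have h2 : ev b L (g • ω) A ((L g : H →L[ℂ] H) (b j)) = (L g : H →L[ℂ] H) (ev b L ω A (b j)) :=
    congrArg (fun X : H →L[ℂ] H => X (b j)) h1
  rw [← hL g i, ← hL g j, h2, TR_isom]

omit [Group G] [Countable G] [CompleteSpace H] in
theorem TR_sum_le (x y : H) (s : Finset G) :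
    ∑ r ∈ s, ‖⟪x, b r⟫_ℂ * ⟪b r, y⟫_ℂ‖ ≤ 1 / 2 * (‖x‖ ^ 2 + ‖y‖ ^ 2) := by
  have h1 := b.orthonormal.sum_inner_products_le (x := x) (s := s)
  have h2 := b.orthonormal.sum_inner_products_le (x := y) (s := s)
  have h3 : ∀ r ∈ s, ‖⟪x, b r⟫_ℂ * ⟪b r, y⟫_ℂ‖ ≤ 1 / 2 * (‖⟪b r, x⟫_ℂ‖ ^ 2 + ‖⟪b r, y⟫_ℂ‖ ^ 2) := by
    intro r _
    rw [norm_mul, norm_inner_symm x (b r)]
    nlinarith [sq_nonneg (‖⟪b r, x⟫_ℂ‖ - ‖⟪b r, y⟫_ℂ‖)]
  refine (Finset.sum_le_sum h3).trans ?_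
  rw [← Finset.mul_sum, Finset.sum_add_distrib]
  linarith

theorem TR_adj (A : CF (Ω := Ω) b L) (ω : Ω) (x y : H) :
    ⟪x, ev b L ω A y⟫_ℂ = ⟪ev b L ω (star A) x, y⟫_ℂ := by
  rw [map_star, ContinuousLinearMap.star_eq_adjoint, ContinuousLinearMap.adjoint_inner_left]

theorem TR_int (A B : CF (Ω := Ω) b L) (x y u v : H) :
    Integrable (fun ω : Ω => ⟪x, ev b L ω A y⟫_ℂ * ⟪u, ev b L ω B v⟫_ℂ) P := by
  refine Integrable.of_bound ((ev_meas b L A x y).mul (ev_meas b L B u v)).aestronglyMeasurable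
    ((‖x‖ * ‖y‖ * ‖A‖) * (‖u‖ * ‖v‖ * ‖B‖)) (Eventually.of_forall fun ω => ?_)
  rw [norm_mul]
  exact mul_le_mul (ev_inner_le b L A x y ω) (ev_inner_le b L B u v ω) (norm_nonneg _)
    (by positivity)

theorem TR_hasSum (A B : CF (Ω := Ω) b L) (v : H) (hv : ‖v‖ = 1) :
    HasSum (fun r : G => ∫ ω, ⟪v, ev b L ω A (b r)⟫_ℂ * ⟪b r, ev b L ω B v⟫_ℂ ∂P)
      (∫ ω, ⟪v, ev b L ω (A * B) v⟫_ℂ ∂P) := by
  have hF : ∀ r : G, Integrable (fun ω => ⟪v, ev b L ω A (b r)⟫_ℂ * ⟪b r, ev b L ω B v⟫_ℂ) P :=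
    fun r => TR_int P b L A B v (b r) (b r) v
  have hbound : ∀ (s : Finset G) (ω : Ω),
      ∑ r ∈ s, ‖⟪v, ev b L ω A (b r)⟫_ℂ * ⟪b r, ev b L ω B v⟫_ℂ‖ ≤
        1 / 2 * (‖star A‖ ^ 2 + ‖B‖ ^ 2) := by
    intro s ω
    have h1 := TR_sum_le b (ev b L ω (star A) v) (ev b L ω B v) s
    simp only [← TR_adj] at h1
    refine h1.trans ?_
    have h2 : ‖ev b L ω (star A) v‖ ≤ ‖star A‖ := by
      have := (ev b L ω (star A)).le_opNorm v
      rw [hv, mul_one] at this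
      exact this.trans (ev_norm b L ω _)
    have h3 : ‖ev b L ω B v‖ ≤ ‖B‖ := by
      have := (ev b L ω B).le_opNorm v
      rw [hv, mul_one] at this
      exact this.trans (ev_norm b L ω _)
    have h4 : ‖ev b L ω (star A) v‖ ^ 2 ≤ ‖star A‖ ^ 2 := pow_le_pow_left₀ (norm_nonneg _) h2 2
    have h5 : ‖ev b L ω B v‖ ^ 2 ≤ ‖B‖ ^ 2 := pow_le_pow_left₀ (norm_nonneg _) h3 2
    linarith
  have hsum : Summable (fun r : G => ∫ ω, ‖⟪v, ev b L ω A (b r)⟫_ℂ * ⟪b r, ev b L ω B v⟫_ℂ‖ ∂P) := by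
    apply summable_of_sum_le (c := 1 / 2 * (‖star A‖ ^ 2 + ‖B‖ ^ 2))
    · intro r
      exact integral_nonneg fun θ => norm_nonneg _
    · intro s
      rw [← integral_finsetSum _ fun r _ => (hF r).norm]
      have h6 : ∫ ω, ∑ r ∈ s, ‖⟪v, ev b L ω A (b r)⟫_ℂ * ⟪b r, ev b L ω B v⟫_ℂ‖ ∂P ≤
          ∫ _ω, 1 / 2 * (‖star A‖ ^ 2 + ‖B‖ ^ 2) ∂P := by
        apply integral_mono (integrable_finsetSum _ fun r _ => (hF r).norm) (integrable_const _)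
        intro θ
        exact hbound s θ
      simpa using h6
  have h := hasSum_integral_of_summable_integral_norm hF hsum
  have h8 : ∫ ω, ⟪v, ev b L ω (A * B) v⟫_ℂ ∂P =
      ∫ ω, ∑' r : G, ⟪v, ev b L ω A (b r)⟫_ℂ * ⟪b r, ev b L ω B v⟫_ℂ ∂P := by
    refine integral_congr_ae (Eventually.of_forall fun ω => ?_)
    have h7 := b.hasSum_inner_mul_inner (ev b L ω (star A) v) (ev b L ω B v)
    simp only [← TR_adj] at h7
    show ⟪v, ev b L ω (A * B) v⟫_ℂ = ∑' r : G, ⟪v, ev b L ω A (b r)⟫_ℂ * ⟪b r, ev b L ω B v⟫_ℂ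
    rw [h7.tsum_eq, map_mul]
    rfl
  rw [h8]
  exact h

end TR

theorem t_TR : P_TR := by
  intro G Ω H _ _ _ _ _ _ _ P _ b L hL hmp
  have hv : ‖b 1‖ = 1 := b.orthonormal.1 1
  refine ⟨?_, ?_, ?_, ?_⟩
  · rw [tau_apply]
    have h1 : ∀ ω : Ω, ⟪b 1, ev b L ω 1 (b 1)⟫_ℂ = 1 := by
      intro ω
      rw [map_one (ev b L ω), show (1 : H →L[ℂ] H) (b 1) = b 1 from rfl, inner_self_eq_norm_sq_to_K, hv]
      simp
    simp only [h1]
    simp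
  · intro a
    rw [tau_apply]
    have h1 : (∫ ω, ⟪b 1, ev b L ω (star a * a) (b 1)⟫_ℂ ∂P).re =
        ∫ ω, (⟪b 1, ev b L ω (star a * a) (b 1)⟫_ℂ).re ∂P :=
      (integral_re (ev_int P b L (star a * a) (b 1) (b 1))).symm
    rw [h1]
    apply integral_nonneg
    intro ω
    show 0 ≤ (⟪b 1, ev b L ω (star a * a) (b 1)⟫_ℂ).re
    rw [map_mul, show (ev b L ω (star a) * ev b L ω a) (b 1) = ev b L ω (star a) (ev b L ω a (b 1)) from rfl,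
      TR_adj, star_star]
    exact inner_self_nonneg (𝕜 := ℂ)
  · intro a
    rw [tau_apply, tau_apply, ← integral_conj]
    refine integral_congr_ae (Eventually.of_forall fun ω => ?_)
    show ⟪b 1, ev b L ω (star a) (b 1)⟫_ℂ = conj ⟪b 1, ev b L ω a (b 1)⟫_ℂ
    rw [TR_adj, star_star, inner_conj_symm]
  · intro A B
    rw [tau_apply, tau_apply]
    have h1 := TR_hasSum P b L A B (b 1) hv
    have h2 := TR_hasSum P b L B A (b 1) hv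
    have h3 : ∀ r : G, ∫ ω, ⟪b 1, ev b L ω A (b r)⟫_ℂ * ⟪b r, ev b L ω B (b 1)⟫_ℂ ∂P =
        ∫ ω, ⟪b 1, ev b L ω B (b r⁻¹)⟫_ℂ * ⟪b r⁻¹, ev b L ω A (b 1)⟫_ℂ ∂P := by
      intro r
      have hm : AEStronglyMeasurable (fun ω : Ω => ⟪b 1, ev b L ω A (b r)⟫_ℂ *
          ⟪b r, ev b L ω B (b 1)⟫_ℂ) (P.map (fun ω : Ω => r • ω)) :=
        ((ev_meas b L A (b 1) (b r)).mul (ev_meas b L B (b r) (b 1))).aestronglyMeasurable
      have h4 := integral_map (hmp r).measurable.aemeasurable hm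
      rw [(hmp r).map_eq] at h4
      rw [h4]
      refine integral_congr_ae (Eventually.of_forall fun ω => ?_)
      have h5 := TR_shift b L hL A r ω r⁻¹ 1
      have h6 := TR_shift b L hL B r ω 1 r⁻¹
      rw [mul_inv_cancel, mul_one] at h5 h6
      show ⟪b 1, ev b L (r • ω) A (b r)⟫_ℂ * ⟪b r, ev b L (r • ω) B (b 1)⟫_ℂ =
        ⟪b 1, ev b L ω B (b r⁻¹)⟫_ℂ * ⟪b r⁻¹, ev b L ω A (b 1)⟫_ℂ
      rw [h5, h6]
      exact mul_comm _ _
    simp only [h3] at h1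
    have h4 : HasSum (fun r : G => ∫ ω, ⟪b 1, ev b L ω B (b r⁻¹)⟫_ℂ *
        ⟪b r⁻¹, ev b L ω A (b 1)⟫_ℂ ∂P) (∫ ω, ⟪b 1, ev b L ω (B * A) (b 1)⟫_ℂ ∂P) :=
      (Equiv.inv G).hasSum_iff.2 h2
    exact h1.unique h4

end Pool.Agent.W611.RO
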